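import Pool.Agent.Results.MP_f50388_nt.LayersMultiquadraticLaw
import Pool.Agent.V11291.FK.Int

/-!
# The rank part over all the layers of the cyclotomic `ℤ₃`-extension, and over their quadratic
# extensions, for the twists of `X_0(14)` by products of a fixed number of primes from an arbitrary set
# of primes of positive density

`E_D` is the twist by `D` of the modular curve `E = E_1 = X_0(14)` (no complex multiplication).  The
class `Adm` consists of the squarefree integers `D`, positive or negative, `1` modulo `4`, squares modulo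
`7`, whose prime divisors split completely in `ℚ(i, √2, √-7)` or are inert in `ℚ(√2)` and in `ℚ(√-7)`,
and are inert in the cyclotomic `ℤ₃`-extension of `ℚ`.

`D` has the property `AllLayers` if over each layer `K` of the cyclotomic `ℤ₃`-extension of `ℚ` both sides
of the conjecture for `X = E_D`, `i = 0`, are zero, and `Ш(E_D/K)[2] = 0`.  Then, over each of the fields
`F = K(√D)`, both sides are zero for `X = E`.

We fix the number `k` of the split prime divisors of `D` and the numbers `a`, `b` of the inert prime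
divisors which are `3` and `5` modulo `8`, and an arbitrary set `S` of primes which contains a positive
lower proportion of the primes of each of the kinds that occur (no other condition).

Theorem.  Let `b` be even and `a + b ≥ 1`.  The number of the `D` of the class, `|D| ≤ X`, with exactly
`k`, `a`, `b` prime divisors of the three kinds, all of them in `S`, has the order of magnitude
`X (log log X)^(k + a + b - 1) / log X`, and the proportion of the `D` with the property `AllLayers` among
them tends to the rational number `∏_{i < (k + 1) / 2} (1 - 2^{-(2 i + 1)})`, which is `1`, `1/2`, `1/2`,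
`7/16`, `7/16`, … for `k = 0, 1, 2, 3, 4, …`: the proportion of the nonsingular matrices among the
symmetric `k` times `k` matrices over the field with two elements.

So one set of twists, an explicit proportion of a thin family, is good over infinitely many fields `K` and
`F`, of unbounded degree.  The conditions hold, for instance, for the primes in a residue class modulo any
number prime to `42`.

The proof.  `D` is good if and only if a matrix `R D` over `𝔽₂` is nonsingular (team, library, see the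
files `AllLayersExactProportion` of problem `MP_cd906c_nt` and `LayersMultiquadraticLaw` of problem
`MP_f50388_nt`).  The `k + a + b` prime divisors of almost all `D` are larger than any given power of
`log X`; in boxes the symbols of the primes are equidistributed by the large sieve, for arbitrary subsets
of the primes, since an error of a power of the logarithm is enough.
-/

set_option autoImplicit false

open Finset NumberField IsDedekindDomain Filter Topology

namespace Pool.Agent.Results.MP_6dc9d1_nt.FixedNumberAllLayers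

open scoped Classical

open Pool.Agent.TH841.NF.D (Sha)

/-- The quadratic twist `E_D` of `X_0(14)` (`D = 1` modulo `4`), with its global minimal equation
`y² + x y + y = x³ + ((D - 1)/4) x² + ((9 D² - 1)/2) x - (23 D³ + 1)/4`.  For `D = 1` this is the
equation `y² + x y + y = x³ + 4 x - 6` of `X_0(14)`. -/
def twist (D : ℤ) : WeierstrassCurve ℤ :=
  ⟨1, (D - 1) / 4, 1, (9 * D ^ 2 - 1) / 2, -((23 * D ^ 3 + 1) / 4)⟩

/-- The curve given by the equation of `W` over the ring `R`. -/
abbrev base (W : WeierstrassCurve ℤ) (R : Type) [CommRing R] : WeierstrassCurve R :=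
  W.map (Int.castRingHom R)

/-- The number of the affine points `(x, y)` over the ring `R`. -/
noncomputable def pts (W : WeierstrassCurve ℤ) (R : Type) [CommRing R] : ℕ :=
  Nat.card {P : R × R // (base W R).toAffine.Equation P.1 P.2}

section

variable {K : Type} [Field K] [NumberField K]

/-- `a_v = N v + 1 - #W(k_v)`, the points over the residue field `k_v` counted with the point at
infinity. -/
noncomputable def a (W : WeierstrassCurve ℤ) (v : HeightOneSpectrum (𝓞 K)) : ℤ :=
  (Ideal.absNorm v.asIdeal : ℤ) - pts W (𝓞 K ⧸ v.asIdeal)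

/-- The Euler factor of `L(W/K, s)` at `v` : `(1 - a_v N v^(-s) + N v^(1 - 2 s))⁻¹` if the
discriminant is a unit at `v`, and `(1 - a_v N v^(-s))⁻¹` otherwise. -/
noncomputable def factor (W : WeierstrassCurve ℤ) (s : ℂ) (v : HeightOneSpectrum (𝓞 K)) : ℂ :=
  (1 - (a W v : ℂ) * (Ideal.absNorm v.asIdeal : ℂ) ^ (-s) +
    if ((W.Δ : ℤ) : 𝓞 K) ∈ v.asIdeal then 0 else (Ideal.absNorm v.asIdeal : ℂ) ^ (1 - 2 * s))⁻¹

end

section

variable (K : Type) [Field K] [NumberField K]

/-- The rank of the group of the points over `K`. -/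
noncomputable def rank (W : WeierstrassCurve ℤ) : ℕ := Module.finrank ℤ (base W K).toAffine.Point

/-- The 2-primary part of the Tate-Shafarevich group over `K`. -/
noncomputable abbrev Sha2 (W : WeierstrassCurve ℤ) : AddSubgroup (Sha (base W K)) :=
  AddCommGroup.primaryComponent (Sha (base W K)) 2

end

/-- Both sides of the conjecture are zero for `X = W` over `K` (`i = 0`): the rank of `W(K)` is zero,
the function `L(W/K, s)` is entire, and its order of vanishing at `s = 1` is the rank. -/
def Equality (K : Type) [Field K] [NumberField K] (W : WeierstrassCurve ℤ) : Prop :=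
  rank K W = 0 ∧ ∃ L : ℂ → ℂ, Differentiable ℂ L ∧
    (∀ s : ℂ, 3 / 2 < s.re → HasProd (factor (K := K) W s) (L s)) ∧ L 1 ≠ 0 ∧
    analyticOrderAt L 1 = rank K W

/-- The subfield of `ℂ` generated by the square roots of `D`. -/
noncomputable def quadratic (D : ℤ) : IntermediateField ℚ ℂ :=
  IntermediateField.adjoin ℚ {z : ℂ | z ^ 2 = (D : ℂ)}

/-- The subfield of `ℂ` generated by the `q`-th roots of unity. -/
noncomputable def cyclotomic (q : ℕ) : IntermediateField ℚ ℂ :=
  IntermediateField.adjoin ℚ {z : ℂ | z ^ q = 1}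

/-! ### The class of the discriminants -/

/-- primes which split completely in `ℚ(i, √2, √-7)` -/
def Split (p : ℕ) : Prop := p.Prime ∧ p % 8 = 1 ∧ (p % 7 = 1 ∨ p % 7 = 2 ∨ p % 7 = 4)

/-- primes inert in `ℚ(√2)` and in `ℚ(√-7)` -/
def Inert (q : ℕ) : Prop :=
  q.Prime ∧ (q % 8 = 3 ∨ q % 8 = 5) ∧ (q % 7 = 3 ∨ q % 7 = 5 ∨ q % 7 = 6)

/-- the class of discriminants; the condition modulo `9` means that the prime is inert in all the
layers of the cyclotomic `ℤ₃`-extension of `ℚ` -/
def Adm (D : ℤ) : Prop := Squarefree D ∧ D % 4 = 1 ∧ (D % 7 = 1 ∨ D % 7 = 2 ∨ D % 7 = 4) ∧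
  ∀ p : ℕ, p.Prime → (p : ℤ) ∣ D →
    (Split p ∨ Inert p) ∧ (p % 9 = 2 ∨ p % 9 = 4 ∨ p % 9 = 5 ∨ p % 9 = 7)

/-- the prime factors `≡ 1 mod 8` of `D` -/
def P1 (D : ℤ) : Finset ℕ := D.natAbs.primeFactors.filter fun p => p % 8 = 1

/-- the matrix over `𝔽₂` with rows and columns indexed by `P1 D`: off the diagonal the
entry at `(p, p')` is `1` if `p'` is not a square modulo `p` and `0` otherwise; on the diagonal it
is the number of the prime factors of `D` different from `p` which are not squares modulo `p`, plus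
`1` if the number of the points of `X_0(14)` modulo `p` is not divisible by `8` -/
noncomputable def R (D : ℤ) : Matrix (P1 D) (P1 D) (ZMod 2) := Matrix.of fun i j =>
  if i = j then
    (((D.natAbs.primeFactors.filter fun r : ℕ => r ≠ (i : ℕ) ∧
      ¬ IsSquare (r : ZMod (i : ℕ))).card : ZMod 2) +
        if 8 ∣ pts (twist 1) (ZMod (i : ℕ)) + 1 then 0 else 1)
  else if IsSquare (((j : ℕ)) : ZMod (i : ℕ)) then 0 else 1

/-- `Equality` for `E_D` over `K`, and `Ш(E_D/K)[2] = 0`. -/
def Good (K : Type) [Field K] [NumberField K] (D : ℤ) : Prop :=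
  Equality K (twist D) ∧ ∀ x : Sha (base (twist D) K), 2 • x = 0 → x = 0

/-- `Good K D` for all the layers `K` of the cyclotomic `ℤ₃`-extension of `ℚ` (`K` is a subfield of odd
degree of a `3 ^ (n + 1)`-th cyclotomic field). -/
def AllLayers (D : ℤ) : Prop := ∀ (n : ℕ) (M : Type) [Field M] [NumberField M]
  [IsCyclotomicExtension {3 ^ (n + 1)} ℚ M] (K : IntermediateField ℚ M),
  Odd (Module.finrank ℚ K) → Good K D

/-- The degree of `F` is twice the degree of `K`. -/
def Degree (K F : Type) [Field K] [NumberField K] [Field F] [NumberField F] : Prop :=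
  Module.finrank ℚ F = 2 * Module.finrank ℚ K

/-- `Equality` for `X_0(14)` over `F`; the group `Ш(X_0(14)/F)[2^∞]` is finite and killed by two. -/
def Holds (F : Type) [Field F] [NumberField F] : Prop :=
  Equality F (twist 1) ∧ Finite (Sha2 F (twist 1)) ∧ ∀ x ∈ Sha2 F (twist 1), 2 • x = 0

/-- `Holds F` for `F = K(√D)`, a field of degree `2 [K : ℚ]`, for all the layers `K` of the cyclotomic
`ℤ₃`-extension of `ℚ`. -/
def AllQuadratic (D : ℤ) : Prop :=
  ∀ (m : ℕ) (K F : IntermediateField ℚ ℂ) [NumberField K] [NumberField F],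
    K ≤ cyclotomic (3 ^ (m + 1)) → Odd (Module.finrank ℚ K) → F = quadratic D ⊔ K →
    Degree K F ∧ Holds F

/-- the number of the prime factors of `D` which are `r` modulo `8` -/
def number (r : ℕ) (D : ℤ) : ℕ := (D.natAbs.primeFactors.filter fun p => p % 8 = r).card

/-- the `D` of the class with all the prime factors in `S`, exactly `k` of them split (these are the
prime factors `1` modulo `8`), and exactly `a` and `b` of them inert and `3` and `5` modulo `8` -/
def Family (S : Set ℕ) (k a b : ℕ) (D : ℤ) : Prop :=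
  Adm D ∧ (∀ p : ℕ, p.Prime → (p : ℤ) ∣ D → p ∈ S) ∧ number 1 D = k ∧ number 3 D = a ∧ number 5 D = b

/-- at least a positive proportion of the primes up to `Y` has the property `Q`, for all large `Y` -/
def Dense (Q : ℕ → Prop) : Prop := ∃ (δ : ℝ) (Y₀ : ℕ), 0 < δ ∧ ∀ Y : ℕ, Y₀ ≤ Y →
  δ * (Y / Real.log Y) ≤ (Nat.card {p : ℕ // p ≤ Y ∧ Q p} : ℝ)

/-- the primes of the class in `S` which are `r` modulo `8` -/
def Kind (S : Set ℕ) (r p : ℕ) : Prop :=
  p ∈ S ∧ (Split p ∨ Inert p) ∧ (p % 9 = 2 ∨ p % 9 = 4 ∨ p % 9 = 5 ∨ p % 9 = 7) ∧ p % 8 = r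

/-- `S` contains a positive lower proportion of the primes of each of the kinds that occur -/
def Rich (S : Set ℕ) (k a b : ℕ) : Prop :=
  (1 ≤ k → Dense (Kind S 1)) ∧ (1 ≤ a → Dense (Kind S 3)) ∧ (1 ≤ b → Dense (Kind S 5))

/-- the number of the integers `D` with `|D| ≤ X` and `Q D` -/
noncomputable def count (Q : ℤ → Prop) (X : ℕ) : ℕ := Nat.card {D : ℤ // |D| ≤ X ∧ Q D}

/-- the proportion `∏_{i < (k + 1) / 2} (1 - 2^{-(2 i + 1)})` of the nonsingular matrices among the
symmetric `k` times `k` matrices over the field with two elements -/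
noncomputable def proportion (k : ℕ) : ℝ :=
  ∏ i ∈ range ((k + 1) / 2), (1 - (1 / 2 : ℝ) ^ (2 * i + 1))

/-- the law for the family -/
def Law (S : Set ℕ) (k a b : ℕ) : Prop :=
  (∃ (c C : ℝ) (X₀ : ℕ), 0 < c ∧ 0 < C ∧ ∀ X : ℕ, X₀ ≤ X →
    c * (X * Real.log (Real.log X) ^ (k + a + b - 1) / Real.log X) ≤ (count (Family S k a b) X : ℝ) ∧
    (count (Family S k a b) X : ℝ) ≤
      C * (X * Real.log (Real.log X) ^ (k + a + b - 1) / Real.log X)) ∧
  Tendsto (fun X : ℕ => (count (fun D => Family S k a b D ∧ AllLayers D) X : ℝ) /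
    (count (Family S k a b) X : ℝ)) atTop (𝓝 (proportion k))

lemma twist_one : twist 1 = Pool.Agent.Results.MP_f50388_nt.LayersMultiquadraticLaw.E := by
  unfold twist Pool.Agent.Results.MP_f50388_nt.LayersMultiquadraticLaw.E
  norm_num

lemma mat_eq (D : ℤ) (hD : Adm D) : R D = Pool.Agent.Y687.MQ.matD D := by
  rw [← Pool.Agent.Results.MP_f50388_nt.LayersMultiquadraticLaw.mat_eq D hD]
  unfold R
  rw [twist_one]
  rfl

lemma ord_zero {L : ℂ → ℂ} (hL : Differentiable ℂ L) {n : ℕ} (h : analyticOrderAt L 1 = n)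
    (hn : n = 0) : L 1 ≠ 0 := by
  rw [hn, Nat.cast_zero, analyticOrderAt_eq_zero] at h
  exact h.resolve_left fun h' => h' (hL.analyticAt 1)

lemma all_iff (D : ℤ) (hD : Adm D) : AllLayers D ↔ (R D).det ≠ 0 := by
  have hA := (Pool.Agent.Results.MP_f50388_nt.LayersMultiquadraticLaw.adm_iff D).1 hD
  rw [mat_eq D hD]
  constructor
  · intro h
    have hz : NeZero (3 ^ (0 + 1)) := ⟨by norm_num⟩
    have hcyc : IsCyclotomicExtension {3 ^ (0 + 1)} ℚ (CyclotomicField (3 ^ (0 + 1)) ℚ) :=
      CyclotomicField.isCyclotomicExtension (3 ^ (0 + 1)) ℚ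
    have hodd : Odd (Module.finrank ℚ (⊥ : IntermediateField ℚ (CyclotomicField (3 ^ (0 + 1)) ℚ))) := by
      rw [IntermediateField.finrank_bot]
      exact odd_one
    obtain ⟨⟨h1, -⟩, h2⟩ := h 0 (CyclotomicField (3 ^ (0 + 1)) ℚ) ⊥ hodd
    exact (Pool.Agent.Y682.YQ.layer hA.1 hA.2 0 (CyclotomicField (3 ^ (0 + 1)) ℚ) ⊥ hodd).2.1.1 ⟨h1, h2⟩
  · intro h n M _ _ _ K hodd
    obtain ⟨-, k1, k2⟩ := Pool.Agent.Y682.YQ.layer hA.1 hA.2 n M K hodd
    obtain ⟨r0, r1⟩ := k1.2 h
    obtain ⟨⟨x, -, ⟨L, l, f, r, g, hL, hE, hn, -⟩, -⟩, -⟩ := k2 h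
    exact ⟨⟨r0, L, hL, hE, ord_zero hL hn r0, hn⟩, r1⟩

lemma all_quadratic (D : ℤ) (hD : Adm D) (h1 : D ≠ 1) (h : AllLayers D) : AllQuadratic D := by
  have hns : ¬ IsSquare D := by
    rintro ⟨x, hx⟩
    have hu := hD.1 x ⟨1, by rw [mul_one]; exact hx⟩
    rcases Int.isUnit_iff.1 hu with h2 | h2
    · exact h1 (by rw [hx, h2]; norm_num)
    · exact h1 (by rw [hx, h2]; norm_num)
  have hdet := (all_iff D hD).1 h
  have hg : Pool.Agent.Results.MP_f50388_nt.LayersMultiquadraticLaw.Good {D} := by
    refine ⟨fun d hd => ?_, fun T hT hne => ?_, fun T hT D' k hD' he => ?_⟩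
    · rw [Finset.mem_singleton] at hd
      rw [hd]
      exact hD
    · rcases Finset.subset_singleton_iff.1 hT with h2 | h2
      · rw [h2] at hne
        exact absurd hne Finset.not_nonempty_empty
      · rw [h2, Finset.prod_singleton]
        exact hns
    · have hsq : ∀ C : ℤ, Squarefree C → C = D' * k ^ 2 → C = D' := by
        intro C hC hk
        have h2 := hC k ⟨D', by rw [hk]; ring⟩
        rcases Int.isUnit_iff.1 h2 with h3 | h3
        · rw [hk, h3]; ring
        · rw [hk, h3]; ring
      rcases Finset.subset_singleton_iff.1 hT with h2 | h2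
      · rw [h2, Finset.prod_empty] at he
        have h3 : D' = 1 := (hsq 1 squarefree_one he).symm
        have hS : IsEmpty (Pool.Agent.Results.MP_f50388_nt.LayersMultiquadraticLaw.P1 D') := by
          constructor
          rintro ⟨p, hp⟩
          rw [h3] at hp
          unfold Pool.Agent.Results.MP_f50388_nt.LayersMultiquadraticLaw.P1 at hp
          rw [Int.natAbs_one, Nat.primeFactors_one] at hp
          simp at hp
        rw [Matrix.det_isEmpty]
        exact one_ne_zero
      · rw [h2, Finset.prod_singleton] at he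
        have h3 : D' = D := (hsq D hD.1 he).symm
        rw [h3]
        have h4 : Pool.Agent.Results.MP_f50388_nt.LayersMultiquadraticLaw.R D = R D := by
          rw [mat_eq D hD, Pool.Agent.Results.MP_f50388_nt.LayersMultiquadraticLaw.mat_eq D hD]
        rw [h4]
        exact hdet
  have hall := Pool.Agent.Results.MP_f50388_nt.LayersMultiquadraticLaw.good_all {D} hg
  intro m K F _ _ hK hodd hF
  have hq : quadratic D =
      Pool.Agent.Results.MP_f50388_nt.LayersMultiquadraticLaw.multiquadratic {D} := by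
    unfold quadratic Pool.Agent.Results.MP_f50388_nt.LayersMultiquadraticLaw.multiquadratic
    congr 1
    ext z
    constructor
    · intro hz
      exact ⟨D, Finset.mem_singleton_self D, hz⟩
    · rintro ⟨d, hd, hz⟩
      rw [Finset.mem_singleton] at hd
      rw [hd] at hz
      exact hz
  rw [hq] at hF
  obtain ⟨h2, ⟨L, c1, c2, c3, c4⟩, h3, h4, h5⟩ := hall m K F hK hodd hF
  have h2' : Module.finrank ℚ F = 2 ^ (Finset.card {D}) * Module.finrank ℚ K := h2
  rw [Finset.card_singleton, pow_one] at h2'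
  refine ⟨h2', ?_⟩
  unfold Holds
  rw [twist_one]
  refine ⟨⟨h3, L, c1, c2, c3, c4⟩, h4, fun x hx => ?_⟩
  have h6 := h5 x hx
  rw [Finset.card_singleton, pow_one] at h6
  exact h6

/-- the condition modulo nine -/
def Nin (p : ℕ) : Prop := p % 9 = 2 ∨ p % 9 = 4 ∨ p % 9 = 5 ∨ p % 9 = 7

open Pool.Agent.V11291.FK (Nf Dn Dc Cp) in
lemma fam_iff (S : Set ℕ) (k a b : ℕ) (D : ℤ) :
    Family S k a b D ↔ Nf (fun p => p ∈ S ∧ Nin p) k a b D := by
  unfold Family Nf
  rw [show Adm D ↔ (Pool.Agent.Y687.MQ.AdmD D ∧ Pool.Agent.Y682.YQ.H9 D) from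
    Pool.Agent.Results.MP_f50388_nt.LayersMultiquadraticLaw.adm_iff D]
  constructor
  · rintro ⟨⟨h1, h9⟩, h2, h3⟩
    exact ⟨h1, fun p hp => ⟨h2 p (Nat.prime_of_mem_primeFactors hp)
      (Int.natCast_dvd.2 (Nat.dvd_of_mem_primeFactors hp)),
      h9 p (Nat.prime_of_mem_primeFactors hp) (Int.natCast_dvd.2 (Nat.dvd_of_mem_primeFactors hp))⟩, h3⟩
  · rintro ⟨h1, h2, h3⟩
    have h4 : ∀ p : ℕ, p.Prime → (p : ℤ) ∣ D → p ∈ S ∧ Nin p := fun p hp hd =>
      h2 p (Nat.mem_primeFactors.2 ⟨hp, Int.natCast_dvd.1 hd, Int.natAbs_ne_zero.2 h1.1.ne_zero⟩)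
    exact ⟨⟨h1, fun p hp hd => (h4 p hp hd).2⟩, fun p hp hd => (h4 p hp hd).1, h3⟩

open Pool.Agent.V11291.FK (Nf Dn Dc Cp) in
lemma kind_iff (S : Set ℕ) (r p : ℕ) : Kind S r p ↔ ((p ∈ S ∧ Nin p) ∧ Cp p ∧ p % 8 = r) := by
  unfold Kind Cp
  have h : Nin p → ((Split p ∨ Inert p) ↔
      (Pool.Agent.Y703.CQ.Sp p ∨ Pool.Agent.Y703.CQ.In {3, 5} p)) := by
    intro h9
    unfold Split Inert Pool.Agent.Y703.CQ.Sp Pool.Agent.Y703.CQ.In
    rw [Finset.mem_insert, Finset.mem_singleton]
    refine or_congr_right ⟨fun h => ⟨h.1, ?_, h.2.1, h.2.2⟩, fun h => ⟨h.1, h.2.2.1, h.2.2.2⟩⟩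
    rintro rfl
    unfold Nin at h9
    omega
  constructor
  · rintro ⟨h1, h2, h3, h4⟩
    exact ⟨⟨h1, h3⟩, (h h3).1 h2, h4⟩
  · rintro ⟨⟨h1, h3⟩, h2, h4⟩
    exact ⟨h1, (h h3).2 h2, h3, h4⟩

open Pool.Agent.V11291.FK (Nf Dn Dc Cp) in
lemma dense_iff (S : Set ℕ) (r : ℕ) :
    Dense (Kind S r) ↔ Dn fun p => (p ∈ S ∧ Nin p) ∧ Cp p ∧ p % 8 = r := by
  unfold Dense Dn
  have h : ∀ Y : ℕ, Nat.card {p : ℕ // p ≤ Y ∧ Kind S r p} =
      ((range (Y + 1)).filter fun p => (p ∈ S ∧ Nin p) ∧ Cp p ∧ p % 8 = r).card := by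
    intro Y
    rw [← Fintype.card_coe, ← Nat.card_eq_fintype_card]
    refine Nat.card_congr (Equiv.subtypeEquivRight fun p => ?_)
    rw [Finset.mem_filter, Finset.mem_range, kind_iff, Nat.lt_succ_iff]
  simp only [h]
  refine exists_congr fun δ => exists_congr fun Y₀ => and_congr_right fun _ =>
    forall_congr' fun Y => imp_congr_right fun _ => ?_
  rw [iff_iff_eq]
  congr!

open Pool.Agent.V11291.FK (Nf Dn Dc Cp) in
lemma rich_iff (S : Set ℕ) (k a b : ℕ) : Rich S k a b ↔ Dc (fun p => p ∈ S ∧ Nin p) k a b := by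
  unfold Rich Dc
  rw [dense_iff, dense_iff, dense_iff]

open Pool.Agent.V11291.FK (Nf Dn Dc Cp) in
lemma dn_mono {P Q : ℕ → Prop} (h : ∀ p, P p → Q p) (hP : Dn P) : Dn Q := by
  obtain ⟨δ, Y₀, hδ, h1⟩ := hP
  refine ⟨δ, Y₀, hδ, fun Y hY => (h1 Y hY).trans ?_⟩
  exact_mod_cast Finset.card_le_card fun p hp => by
    rw [mem_filter] at hp ⊢
    exact ⟨hp.1, h p hp.2⟩

open Pool.Agent.V11291.FK (Nf Dn Dc Cp) in
lemma rich_class {q c : ℕ} (hq : Nat.Coprime q 42) (hc : Nat.Coprime c q) (k a b : ℕ) :
    Rich {p | p % q = c % q} k a b := by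
  have hq3 : Nat.Coprime q 9 := by
    have h1 : Nat.Coprime q 3 := hq.coprime_dvd_right (by norm_num)
    exact Nat.Coprime.pow_right 2 h1
  have hq14 : Nat.Coprime q 14 := hq.coprime_dvd_right (by norm_num)
  obtain ⟨z, hz1, hz2⟩ := Nat.chineseRemainder hq3 c 2
  have hz : Nat.Coprime z (q * 9) := by
    refine Nat.Coprime.mul_right ?_ ?_
    · unfold Nat.Coprime
      rw [hz1.gcd_eq]
      exact hc
    · unfold Nat.Coprime
      rw [hz2.gcd_eq]
      norm_num
  have h := Pool.Agent.V11291.FK.dc_class (q := q * 9) (c := z)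
    (Nat.Coprime.mul_left hq14 (by norm_num)) hz k a b
  have key : ∀ p : ℕ, p % (q * 9) = z % (q * 9) → p ∈ {p : ℕ | p % q = c % q} ∧ Nin p := by
    intro p hp
    have h1 : p ≡ z [MOD q * 9] := hp
    refine ⟨(h1.of_mul_right 9).trans hz1, Or.inl ?_⟩
    have h2 : p ≡ 2 [MOD 9] := (h1.of_mul_left q).trans hz2
    exact h2
  rw [rich_iff]
  exact ⟨fun hk => dn_mono (fun p hp => ⟨key p hp.1, hp.2⟩) (h.1 hk),
    fun hk => dn_mono (fun p hp => ⟨key p hp.1, hp.2⟩) (h.2.1 hk),
    fun hk => dn_mono (fun p hp => ⟨key p hp.1, hp.2⟩) (h.2.2 hk)⟩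

/-- **Main theorem.**
(1) A number `D` of the class has the property `AllLayers` if and only if the matrix `R D` is
nonsingular, and in this case, if `D ≠ 1`, it has the property `AllQuadratic`.
(2) Let `b` be even, `a + b ≥ 1`, and let `S` be a set of primes which contains a positive lower
proportion of the primes of each of the kinds that occur.  Then the number of the `D` of the class with
exactly `k`, `a`, `b` prime factors of the three kinds, all in `S`, and `|D| ≤ X` is between two positive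
constants times `X (log log X)^(k + a + b - 1) / log X`, and the proportion of the `D` with the property
`AllLayers` among them tends to `∏_{i < (k + 1) / 2} (1 - 2^{-(2 i + 1)})`.
(3) The condition on `S` holds if `S` is the set of the numbers in a residue class `c` modulo `q`, with
`q` prime to `42` and `c` prime to `q`. -/
theorem result :
    (∀ D : ℤ, Adm D → (AllLayers D ↔ (R D).det ≠ 0) ∧ (D ≠ 1 → AllLayers D → AllQuadratic D)) ∧
    (∀ (S : Set ℕ) (k a b : ℕ), Even b → 1 ≤ a + b → Rich S k a b → Law S k a b) ∧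
    ∀ q c : ℕ, Nat.Coprime q 42 → Nat.Coprime c q → ∀ k a b : ℕ, Rich {p | p % q = c % q} k a b := by
  refine ⟨fun D hD => ⟨all_iff D hD, fun h1 h => all_quadratic D hD h1 h⟩,
    fun S k a b hb hab hS => ?_, fun q c hq hc k a b => rich_class hq hc k a b⟩
  have hS' := (rich_iff S k a b).1 hS
  have e1 : ∀ X : ℕ, count (Family S k a b) X =
      Pool.Agent.V11291.FK.cnt (Pool.Agent.V11291.FK.Nf (fun p => p ∈ S ∧ Nin p) k a b) X := by
    intro X
    have : Family S k a b = Pool.Agent.V11291.FK.Nf (fun p => p ∈ S ∧ Nin p) k a b :=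
      funext fun D => propext (fam_iff S k a b D)
    rw [this]
    rfl
  have e2 : ∀ X : ℕ, count (fun D => Family S k a b D ∧ AllLayers D) X =
      Pool.Agent.V11291.FK.cnt (fun D =>
        Pool.Agent.V11291.FK.Nf (fun p => p ∈ S ∧ Nin p) k a b D ∧
        (Pool.Agent.Y687.MQ.matD D).det ≠ 0) X := by
    intro X
    have : (fun D => Family S k a b D ∧ AllLayers D) = fun D =>
        Pool.Agent.V11291.FK.Nf (fun p => p ∈ S ∧ Nin p) k a b D ∧
          (Pool.Agent.Y687.MQ.matD D).det ≠ 0 := by
      funext D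
      apply propext
      rw [← fam_iff]
      refine and_congr_right fun h => ?_
      rw [all_iff D h.1, mat_eq D h.1]
      exact Iff.rfl
    rw [this]
    rfl
  refine ⟨?_, ?_⟩
  · simp only [e1]
    exact Pool.Agent.V11291.FK.D_size hb hab hS'
  · simp only [e1, e2]
    exact Pool.Agent.V11291.FK.D_law hb hab hS'

end Pool.Agent.Results.MP_6dc9d1_nt.FixedNumberAllLayers
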