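import Pool.Agent.V11288.HS.CentreX

/-!
# The order and the leading coefficient of `L(H^{2i+1}(X), s)` at `s = i + 1` and the partial Euler products

Let `X` be a projective variety of dimension `d` over a number field `K`, `2i + 1 ≤ 2d` (in the problem
`d = 2i + 1`), let `S` be a set of primes of `K` (in the main case the primes of good reduction; the other Euler
factors have no zeros and no poles at `i + 1` and to the right of it), let `α_{v,1}, …, α_{v,N}` be the
eigenvalues of Frobenius on `H^{2i+1}(X)` for `v ∈ S`, and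

`L(s) = ∏_{v ∈ S} ∏_j (1 - α_{v,j} q_v^{-s})⁻¹`, `Re s > i + 3/2`,

`log P(Y) = ∑_{q_v^k ≤ Y} t_k(v) / (k q_v^{k (i+1)})`, `t_k(v) = ∑_j α_{v,j}^k`,

so that `P(Y)` is the partial Euler product at the central point `i + 1` over all finite fields with at most `Y`
elements. Let `L` have a continuation of polynomial growth to `Re s > i + 1 - η` for some `η > 0`, holomorphic
except perhaps for a pole at `i + 1`. For real `r` and `A > 0` let

`D(r, A) = ∫_1^∞ (log P(Y) + r (log log Y + γ) - log A)² dY/Y ∈ [0, ∞]`.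

It is shown for all real `r` and `A > 0`:

1. `D(r, A) < ∞` if and only if `L` has no zeros with `Re s > i + 1`, `r` is the order of `L` at `i + 1` and `A` is
   the leading coefficient: `L(s)/(s - i - 1)^r → A` for `s → i + 1`.

2. In this case `D(r, A) = (1/π) ∫_{-∞}^∞ (log |L(i + 1 + it)| - r log |t| - log A)² dt/t²`.

3. Hence for every integer `r` (for example `r = rank CH^{i+1}(X)_0`) the following are equivalent: `L` has no zeros
   with `Re s > i + 1` and the order `r` at `i + 1`; `D(r, A) < ∞` for some `A > 0`; the two integrals in (2) are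
   finite and equal for some `A > 0`.
-/

set_option autoImplicit false

namespace Pool.Agent.Results.MP_6dc9d1_nt.CriticalLineFormula

open Filter Topology Set NumberField IsDedekindDomain MeasureTheory

variable {K : Type} [Field K] [NumberField K] {n N : ℕ}

/-- The norm `q_v`. -/
noncomputable def nrm (v : HeightOneSpectrum (𝓞 K)) : ℕ := Ideal.absNorm v.asIdeal

/-- The set `X` of homogeneous polynomials over `𝓞_K` in `n` variables gives a projective variety over
`K`.  For a field `κ` with `q` elements and a homomorphism `𝓞_K → κ` this is `(q - 1)` times the number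
of the points of `X` with coordinates in `κ`: the number of the nonzero solutions of the equations. -/
noncomputable def cone (X : Set (MvPolynomial (Fin n) (𝓞 K))) {κ : Type} [Field κ]
    (φ : 𝓞 K →+* κ) : ℕ :=
  Nat.card {u : Fin n → κ // u ≠ 0 ∧ ∀ f ∈ X, MvPolynomial.eval₂ φ u f = 0}

/-- `α_1, …, α_N` are the eigenvalues of the geometric Frobenius at the prime `v` of `K` on `H^i(X)`,
for a variety `X` of dimension `d`: there are finite multisets `β_k` of complex numbers of absolute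
value `q_v^{k/2}`, `k = 0, …, 2d`, with `β_i = {α_1, …, α_N}`, such that for every finite extension
`κ` of the residue field of `v`, of degree `e`, the number of the points of `X` with coordinates in
`κ` is `∑ (-1)^k ∑_{z ∈ β_k} z^e`.  By the theorem of Deligne such `β_k` exist at almost all primes
if `X` is smooth, with `N` the `i`-th Betti number of `X`; for `k ≤ 2d` they are unique. -/
def IsFrobenius (X : Set (MvPolynomial (Fin n) (𝓞 K))) (d i : ℕ)
    (v : HeightOneSpectrum (𝓞 K)) (α : Fin N → ℂ) : Prop :=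
  ∃ β : ℕ → Multiset ℂ, β i = Finset.univ.val.map α ∧
    (∀ k, ∀ z ∈ β k, ‖z‖ = (nrm v : ℝ) ^ ((k : ℝ) / 2)) ∧
    ∀ (κ : Type) [Field κ] [Finite κ] (φ : 𝓞 K →+* κ) (e : ℕ), RingHom.ker φ = v.asIdeal →
      Nat.card κ = nrm v ^ e →
      (cone X φ : ℂ) = ((nrm v : ℂ) ^ e - 1) *
          ∑ k ∈ Finset.range (2 * d + 1), (-1 : ℂ) ^ k * ((β k).map (fun z => z ^ e)).sum

variable {S : Set (HeightOneSpectrum (𝓞 K))}

/-- The Euler factor `∏_j (1 - α_{v,j} q_v^{-s})⁻¹`. -/
noncomputable def factor (α : S → Fin N → ℂ) (v : S) (s : ℂ) : ℂ :=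
  ∏ j, (1 - α v j * (nrm v.1 : ℂ) ^ (-s))⁻¹

/-- `log P(Y)`: the sum of `t_k(v) / (k q_v^{k (i+1)})` over all primes `v ∈ S` and `k ≥ 1` (here
`k = p.2 + 1`) with `q_v^k ≤ Y`; `t_k(v) = ∑_j α_{v,j}^k` is a real number. -/
noncomputable def logP (i : ℕ) (α : S → Fin N → ℂ) (Y : ℝ) : ℝ :=
  ∑ᶠ (p : S × ℕ) (_ : (nrm p.1.1 : ℝ) ^ (p.2 + 1) ≤ Y),
    (∑ j, α p.1 j ^ (p.2 + 1)).re / (((p.2 : ℝ) + 1) * ((nrm p.1.1 : ℝ) ^ (i + 1)) ^ (p.2 + 1))

/-- The mean square deviation `D(r, A) = ∫_1^∞ (log P(Y) + r (γ + log log Y) - log A)² dY/Y ∈ [0, ∞]`. -/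
noncomputable def meanSquare (i : ℕ) (α : S → Fin N → ℂ) (r A : ℝ) : ENNReal :=
  ∫⁻ Y in Ioi (1 : ℝ), ENNReal.ofReal
    ((logP i α Y + r * (Real.eulerMascheroniConstant + Real.log (Real.log Y)) - Real.log A) ^ 2 / Y)

/-- `(1/π) ∫_{-∞}^∞ (log |L(i + 1 + it)| - r log |t| - log A)² dt/t² ∈ [0, ∞]`. -/
noncomputable def criticalLine (i : ℕ) (L : ℂ → ℂ) (r A : ℝ) : ENNReal :=
  ENNReal.ofReal Real.pi⁻¹ * ∫⁻ t : ℝ, ENNReal.ofReal
    ((Real.log ‖L (i + 1 + t * Complex.I)‖ - r * Real.log |t| - Real.log A) ^ 2 / t ^ 2)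

/-- `L` is a continuation of the Euler product slightly beyond the critical line: `L(s)` is the Euler product
for `Re s > i + 3/2`, and there are `η > 0`, `k` and a holomorphic function `G` of polynomial growth on
`Re s > i + 1 - η` with `G(s) = (s - i - 1)^k L(s)` for `s ≠ i + 1`. -/
def Continuation (i : ℕ) (α : S → Fin N → ℂ) (L : ℂ → ℂ) : Prop :=
  (∀ s : ℂ, (i : ℝ) + 3 / 2 < s.re → HasProd (fun v : S => factor α v s) (L s)) ∧
  ∃ (η C : ℝ) (k κ : ℕ) (G : ℂ → ℂ), 0 < η ∧ ∀ s : ℂ, (i : ℝ) + 1 - η < s.re →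
    DifferentiableAt ℂ G s ∧ ‖G s‖ ≤ C * (1 + ‖s‖) ^ κ ∧
      (s ≠ i + 1 → G s = (s - (i + 1)) ^ k * L s)

/-- `L` has no zeros with `Re s > i + 1`. -/
def NoZeros (i : ℕ) (L : ℂ → ℂ) : Prop := ∀ s : ℂ, (i : ℝ) + 1 < s.re → L s ≠ 0

/-- `L` has the order `k` and the leading coefficient `A` at `i + 1`: `L(s)/(s - i - 1)^k → A`. -/
def LeadingAt (i : ℕ) (L : ℂ → ℂ) (k : ℤ) (A : ℝ) : Prop :=
  Tendsto (fun s : ℂ => L s / (s - (i + 1)) ^ k) (𝓝[≠] ((i : ℂ) + 1)) (𝓝 (A : ℂ))

open Pool.Agent.V11288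

theorem centre_eq (i : ℕ) : HS.CX.centre (2 * i + 1) = (i : ℝ) + 1 := by
  unfold HS.CX.centre
  push_cast
  ring

theorem centre_eqc (i : ℕ) : ((HS.CX.centre (2 * i + 1) : ℝ) : ℂ) = (i : ℂ) + 1 := by
  rw [centre_eq]
  push_cast
  rfl

theorem meanSquare_eq (i : ℕ) (α : S → Fin N → ℂ) (r A : ℝ) :
    meanSquare i α r A = HS.CX.meanSquare (2 * i + 1) α r A := by
  unfold meanSquare HS.CX.meanSquare
  have h : ∀ Y, logP i α Y = HS.CX.logP (2 * i + 1) α Y := by
    intro Y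
    unfold logP HS.CX.logP
    rw [centre_eq]
    refine finsum_congr fun p => finsum_congr fun _ => ?_
    have e : (nrm p.1.1 : ℝ) ^ (i + 1) = (HS.EX.nrm p.1.1 : ℝ) ^ ((i : ℝ) + 1) := by
      rw [← Real.rpow_natCast]
      push_cast
      rfl
    rw [e]
  simp only [h]

theorem continuation_iff (i : ℕ) (α : S → Fin N → ℂ) (L : ℂ → ℂ) :
    Continuation i α L ↔ HS.CX.Continuation (2 * i + 1) α L := by
  unfold Continuation HS.CX.Continuation
  have e : ((2 * i + 1 : ℕ) : ℝ) / 2 + 1 = (i : ℝ) + 3 / 2 := by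
    push_cast
    ring
  rw [centre_eqc, centre_eq, e]
  exact Iff.rfl

/-- **The central point and the critical line.** -/
theorem result (X : Set (MvPolynomial (Fin n) (𝓞 K))) (d i : ℕ) (hi : 2 * i + 1 ≤ 2 * d)
    (α : S → Fin N → ℂ) (h : ∀ v, IsFrobenius X d (2 * i + 1) v.1 (α v)) (L : ℂ → ℂ)
    (hL : Continuation i α L) :
    (∀ r A : ℝ, 0 < A →
      ((NoZeros i L ∧ ∃ k : ℤ, r = k ∧ LeadingAt i L k A) ↔ meanSquare i α r A < ⊤) ∧
      (meanSquare i α r A < ⊤ → meanSquare i α r A = criticalLine i L r A)) ∧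
    ∀ r : ℤ, List.TFAE [
      NoZeros i L ∧ meromorphicOrderAt L ((i : ℂ) + 1) = r,
      ∃ A : ℝ, 0 < A ∧ meanSquare i α r A < ⊤,
      ∃ A : ℝ, 0 < A ∧ meanSquare i α r A < ⊤ ∧ meanSquare i α r A = criticalLine i L r A] := by
  have hP : HS.EX.Pure (2 * i + 1) α := HS.EX.pure_of_frobenius hi h
  have hL' := (continuation_iff i α L).1 hL
  have hmain : ∀ r A : ℝ, 0 < A →
      ((NoZeros i L ∧ ∃ k : ℤ, r = k ∧ LeadingAt i L k A) ↔ meanSquare i α r A < ⊤) ∧
      (meanSquare i α r A < ⊤ → meanSquare i α r A = criticalLine i L r A) := by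
    intro r A hA
    obtain ⟨h3, h4⟩ := HS.CX.main hP hL' r hA
    unfold NoZeros LeadingAt criticalLine
    rw [meanSquare_eq]
    rw [centre_eqc, centre_eq] at h3
    rw [centre_eqc] at h4
    exact ⟨h3, h4⟩
  refine ⟨hmain, fun r => ?_⟩
  have hz : NoZeros i L ↔ ∀ s : ℂ, HS.CX.centre (2 * i + 1) < s.re → L s ≠ 0 := by
    rw [centre_eq]
    exact Iff.rfl
  have hord : ∀ (k : ℤ) (A : ℝ), 0 < A → LeadingAt i L k A → meromorphicOrderAt L ((i : ℂ) + 1) = k := by
    intro k A hA hlim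
    obtain ⟨-, η, C, k₀, κ, G, hη, hG⟩ := hL
    refine HS.CX.ord_of_lim (HS.CX.mero_of_cont (G := G) (k := k₀) hη fun s hs => ?_)
      (by exact_mod_cast hA.ne') hlim
    have hre : ((i : ℂ) + 1).re = (i : ℝ) + 1 := by
      rw [Complex.add_re, Complex.natCast_re, Complex.one_re]
    rw [hre] at hs
    exact ⟨(hG s hs).1, (hG s hs).2.2⟩
  tfae_have 1 → 3 := by
    rintro ⟨h1, h2⟩
    obtain ⟨k, A, hA, h3⟩ := HS.CX.exists_order hP hL' (hz.1 h1)
    rw [← meanSquare_eq] at h3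
    obtain ⟨-, k', hk', hlim⟩ := (hmain k A hA).1.2 h3
    have e1 : k = k' := by exact_mod_cast hk'
    have e2 : (r : WithTop ℤ) = (k' : WithTop ℤ) := by rw [← h2, hord k' A hA hlim]
    have e3 : r = k := by
      rw [e1]
      exact_mod_cast e2
    rw [e3]
    exact ⟨A, hA, h3, (hmain k A hA).2 h3⟩
  tfae_have 3 → 2 := by
    rintro ⟨A, hA, h1, -⟩
    exact ⟨A, hA, h1⟩
  tfae_have 2 → 1 := by
    rintro ⟨A, hA, h1⟩
    obtain ⟨h2, k, hk, hlim⟩ := (hmain r A hA).1.2 h1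
    have e1 : r = k := by exact_mod_cast hk
    rw [e1]
    exact ⟨h2, hord k A hA hlim⟩
  tfae_finish

end Pool.Agent.Results.MP_6dc9d1_nt.CriticalLineFormula
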