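import Pool.Agent.Results.MP_6dc9d1_nt.FixedNumberAllLayers
import Pool.Agent.Results.MP_8b7eba_nt.FixedNumberOfPrimes
import Pool.Agent.V1110.SpB

/-!
# The equality of order and rank at all the layers of the cyclotomic `ℤ₃`-extension, for twists of
# `X_0(14)` by the terms of sparse sequences with a given number of prime factors

`E_D` is the twist of `X_0(14)` by `D`. The hand-in `FixedNumberAllLayers` of this problem treats the
numbers `D` of a class which have exactly `k` split prime factors and exactly `a`, `b` inert prime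
factors congruent to `3`, `5` modulo `8`, all in a set `S` of primes: the proportion of those such that
over ALL the layers `K` of the cyclotomic `ℤ₃`-extension the rank of `E_D(K)` and the order of
`L(E_D/K, s)` at `1` are zero and `Ш(E_D/K)[2] = 0` tends to `∏_{i < (k+1)/2} (1 - 2^{-(2 i + 1)})`; then
also the order and the rank of `X_0(14)` over `K(√D)` are zero for all `K`.

Here `D` runs through the numbers `± ⌊α n ^ p⌋` with these properties, where `p > 1` is any real number: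
a sparse sequence. For each sequence `S_0, S_1, …` of sets of primes there is a set `A₀` of real
numbers of Hausdorff dimension smaller than one, such that for all real `α > 0` not in `A₀`, all `S_j`
and all `k, a, b` the proportion is the same, and at least `c N / log N` of the `n ≤ N` give such a `D`.
-/

set_option autoImplicit false

open Finset Filter Topology

namespace Pool.Agent.Results.MP_6dc9d1_nt.SparseSequences

open Pool.Agent.Results.MP_6dc9d1_nt.FixedNumberAllLayers

/-- the number of the `1 ≤ n ≤ N` such that `D = s ⌊α n ^ p⌋` has the property `Q` -/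
noncomputable def along (α p : ℝ) (s : ℤ) (Q : ℤ → Prop) (N : ℕ) : ℕ :=
  Nat.card {n : ℕ // (1 ≤ n ∧ n ≤ N) ∧ Q (s * (⌊α * (n : ℝ) ^ p⌋₊ : ℤ))}

/-- `D` is in the family, `AllLayers D` holds, and (if `D ≠ 1`) `AllQuadratic D` holds -/
def Both (S : Set ℕ) (k a b : ℕ) (D : ℤ) : Prop :=
  Family S k a b D ∧ AllLayers D ∧ (D ≠ 1 → AllQuadratic D)

lemma both_iff (S : Set ℕ) (k a b : ℕ) (D : ℤ) :
    Both S k a b D ↔ Family S k a b D ∧ AllLayers D := by
  unfold Both
  constructor
  · rintro ⟨h1, h2, -⟩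
    exact ⟨h1, h2⟩
  · rintro ⟨h1, h2⟩
    exact ⟨h1, h2, fun h3 => (FixedNumberAllLayers.result.1 D h1.1).2 h3 h2⟩

lemma sign {S : Set ℕ} {k a b : ℕ} {D : ℤ} (hD : Family S k a b D) :
    0 < (-1 : ℤ) ^ a * D := by
  have h : MP_8b7eba_nt.FixedNumberOfPrimes.Family Set.univ k a b D := by
    obtain ⟨⟨h1, h2, h3, h4⟩, -, h5, h6, h7⟩ := hD
    refine ⟨⟨h1, h2, h3, fun p hp hd => ⟨?_, (h4 p hp hd).1⟩⟩, fun p _ _ => Set.mem_univ p,
      h5, h6, h7⟩
    rintro rfl
    have := (h4 3 hp hd).2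
    omega
  have h1 := (MP_8b7eba_nt.FixedNumberOfPrimes.result.2.2.1 Set.univ k a b D h).1
  have h0 : D ≠ 0 := hD.1.1.ne_zero
  rcases Nat.even_or_odd a with ha | ha
  · rw [ha.neg_one_pow, one_mul]
    exact h1.2 ha
  · rw [ha.neg_one_pow, neg_one_mul]
    have h2 : ¬ 0 < D := fun h3 => (Nat.not_even_iff_odd.2 ha) (h1.1 h3)
    omega

/-- **Main theorem.** Let `p > 1` be a real number and `S_0, S_1, …` sets of natural numbers. There is a
set `A₀` of real numbers of Hausdorff dimension smaller than one such that for all real `α > 0` not in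
`A₀`, for all `j`, `k`, `a`, `b` with `b` even and `a + b ≥ 1`, if `S_j` contains a positive lower
proportion of the primes of each of the kinds that occur: let `D_n = (-1)^a ⌊α n ^ p⌋`. Then
(1) for at least `c N / log N` of the `n ≤ N` (`c > 0`) the number `D_n` is in the class and has exactly
`k`, `a`, `b` prime factors of the three kinds, all in `S_j`;
(2) the proportion of the `D_n` with `AllLayers` (and then `AllQuadratic` if `D_n ≠ 1`) among these `D_n`
tends to `∏_{i < (k+1)/2} (1 - 2^{-(2 i + 1)})`.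
(3) The condition on `S_j` holds if `S_j` is a residue class `c` modulo `q`, with `q` prime to `42` and
`c` prime to `q`; one set `A₀` is good for all the residue classes. -/
theorem result (p : ℝ) (hp : 1 < p) :
    (∀ S : ℕ → Set ℕ, ∃ A₀ : Set ℝ, dimH A₀ < 1 ∧ ∀ α : ℝ, 0 < α → α ∉ A₀ →
      ∀ j k a b : ℕ, Even b → 1 ≤ a + b → Rich (S j) k a b →
        (∃ c : ℝ, 0 < c ∧ ∃ N₀ : ℕ, ∀ N : ℕ, N₀ ≤ N →
          c * N / Real.log N ≤ (along α p ((-1) ^ a) (Family (S j) k a b) N : ℝ)) ∧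
        Tendsto (fun N : ℕ => (along α p ((-1) ^ a) (Both (S j) k a b) N : ℝ) /
            along α p ((-1) ^ a) (Family (S j) k a b) N) atTop (𝓝 (proportion k))) ∧
    ∃ A₀ : Set ℝ, dimH A₀ < 1 ∧ ∀ α : ℝ, 0 < α → α ∉ A₀ →
      ∀ q c : ℕ, Nat.Coprime q 42 → Nat.Coprime c q → ∀ k a b : ℕ, Even b → 1 ≤ a + b →
        (∃ c' : ℝ, 0 < c' ∧ ∃ N₀ : ℕ, ∀ N : ℕ, N₀ ≤ N →
          c' * N / Real.log N ≤
            (along α p ((-1) ^ a) (Family {p | p % q = c % q} k a b) N : ℝ)) ∧
        Tendsto (fun N : ℕ =>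
          (along α p ((-1) ^ a) (Both {p | p % q = c % q} k a b) N : ℝ) /
            along α p ((-1) ^ a) (Family {p | p % q = c % q} k a b) N) atTop
          (𝓝 (proportion k)) := by
  classical
  have main : ∀ S : ℕ → Set ℕ, ∃ A₀ : Set ℝ, dimH A₀ < 1 ∧ ∀ α : ℝ, 0 < α → α ∉ A₀ →
      ∀ j k a b : ℕ, Even b → 1 ≤ a + b → Rich (S j) k a b →
        (∃ c : ℝ, 0 < c ∧ ∃ N₀ : ℕ, ∀ N : ℕ, N₀ ≤ N →
          c * N / Real.log N ≤ (along α p ((-1) ^ a) (Family (S j) k a b) N : ℝ)) ∧
        Tendsto (fun N : ℕ => (along α p ((-1) ^ a) (Both (S j) k a b) N : ℝ) /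
            along α p ((-1) ^ a) (Family (S j) k a b) N) atTop (𝓝 (proportion k)) := by
    intro S
    obtain ⟨A₀, hA₀, h⟩ := Pool.Agent.V1110.SpA.ratio_int p hp
      (ι := ℕ × ℕ × ℕ × ℕ)
      (fun v => Both (S v.1) v.2.1 v.2.2.1 v.2.2.2)
      (fun v => Family (S v.1) v.2.1 v.2.2.1 v.2.2.2)
    refine ⟨A₀, hA₀, fun α hα hαA j k a b hb hab hS => ?_⟩
    obtain ⟨⟨c, C, X₀, hc, -, hX₀⟩, hlaw⟩ := FixedNumberAllLayers.result.2.1 (S j) k a b hb hab hS
    have hs : ((-1 : ℤ) ^ a = 1 ∨ (-1 : ℤ) ^ a = -1) := neg_one_pow_eq_or ℤ a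
    have hsign : ∀ D : ℤ, Family (S j) k a b D → 0 < (-1 : ℤ) ^ a * D := fun D hD => sign hD
    have hcount : ∀ (Q : ℤ → Prop) (X : ℕ), (∀ D, Q D → 0 < (-1 : ℤ) ^ a * D) →
        count Q X = Nat.card {D : ℤ // |D| ≤ X ∧ 0 < (-1 : ℤ) ^ a * D ∧ Q D} := by
      intro Q X hQ
      unfold count
      refine Nat.card_congr (Equiv.subtypeEquivRight fun D => ?_)
      constructor
      · rintro ⟨h1, h2⟩
        exact ⟨h1, hQ D h2, h2⟩
      · rintro ⟨h1, -, h2⟩
        exact ⟨h1, h2⟩
    have hfin := h α hα hαA (j, k, a, b) ((-1) ^ a) hs (proportion k) c 1 hc (by norm_num) ?_ ?_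
    · refine ⟨?_, hfin.1⟩
      obtain ⟨b', hb', N₀, hN₀⟩ := hfin.2
      refine ⟨b', hb', N₀, fun N hN => ?_⟩
      have h1 := hN₀ N hN
      rw [Real.rpow_neg_one, ← div_eq_mul_inv] at h1
      exact h1
    · -- the size
      have hll : Tendsto (fun X : ℕ => Real.log (Real.log (X : ℝ))) atTop atTop :=
        Real.tendsto_log_atTop.comp (Real.tendsto_log_atTop.comp tendsto_natCast_atTop_atTop)
      obtain ⟨X₁, hX₁⟩ := (hll.eventually (eventually_ge_atTop 1)).exists_forall_of_atTop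
      refine ⟨max X₀ (max X₁ 3), fun X hX => ?_⟩
      have h1 := (hX₀ X ((le_max_left _ _).trans hX)).1
      have h2 := hX₁ X (((le_max_left _ _).trans (le_max_right _ _)).trans hX)
      have h3 : 3 ≤ X := ((le_max_right _ _).trans (le_max_right _ _)).trans hX
      have h4 : 1 ≤ Real.log X := Pool.Agent.Y854.GM.one_le_log3 h3
      rw [hcount _ X hsign] at h1
      refine le_trans ?_ h1
      rw [Real.rpow_neg_one, mul_assoc]
      refine mul_le_mul_of_nonneg_left ?_ hc.le
      rw [← div_eq_mul_inv]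
      refine div_le_div_of_nonneg_right ?_ (by linarith)
      have h5 : (1 : ℝ) ≤ Real.log (Real.log X) ^ (k + a + b - 1) := one_le_pow₀ h2
      have h6 : (0 : ℝ) ≤ X := Nat.cast_nonneg X
      nlinarith
    · refine hlaw.congr fun X => ?_
      rw [hcount _ X hsign, hcount _ X (fun D hD => hsign D hD.1)]
      have e : Nat.card {D : ℤ // |D| ≤ X ∧ 0 < (-1 : ℤ) ^ a * D ∧
          (Family (S j) k a b D ∧ AllLayers D)} =
          Nat.card {D : ℤ // |D| ≤ X ∧ 0 < (-1 : ℤ) ^ a * D ∧ Both (S j) k a b D} := by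
        refine Nat.card_congr (Equiv.subtypeEquivRight fun D => ?_)
        rw [both_iff]
      rw [e]
  refine ⟨main, ?_⟩
  obtain ⟨e⟩ : Nonempty (ℕ × ℕ ≃ ℕ) := ⟨Nat.pairEquiv⟩
  obtain ⟨A₀, hA₀, h⟩ := main fun j => {p | p % (e.symm j).1 = (e.symm j).2 % (e.symm j).1}
  refine ⟨A₀, hA₀, fun α hα hαA q c hq hc k a b hb hab => ?_⟩
  have h1 := h α hα hαA (e (q, c)) k a b hb hab
  simp only [Equiv.symm_apply_apply] at h1
  exact h1 (FixedNumberAllLayers.result.2.2 q c hq hc k a b)

end Pool.Agent.Results.MP_6dc9d1_nt.SparseSequences
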